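import Mathlib

namespace Pool.Agent.H.MP_cf16d9_co

open Finset

def nfLines : Finset (Finset (Fin 7)) :=
  {{0,1,3}, {0,2,4}, {1,2,5}, {2,3,6}, {1,4,6}, {0,5,6}}

def rN (A : Finset (Fin 7)) : ℕ := if A ∈ nfLines then 2 else min 3 A.card

lemma ax1 : ∀ A : Finset (Fin 7), rN A ≤ A.card := by decide +kernel
lemma ax2 : ∀ B A : Finset (Fin 7), A ⊆ B → rN A ≤ rN B := by decide +kernel

lemma noU : ∀ S C : Finset (Fin 7), S.card = 5 → S ∩ C = ∅ →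
    (¬ ∀ B ∈ S.powerset, min 2 B.card + rN C = rN (B ∪ C)) ∧
    (¬ ∀ B ∈ S.powerset, min 3 B.card + rN C = rN (B ∪ C)) := by decide +kernel

end Pool.Agent.H.MP_cf16d9_co
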