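import Mathlib
import Pool.Agent.H.MP_cf16d9_co.A

namespace Pool.Agent.H.MP_cf16d9_co

open Finset

lemma ax3 : ∀ A B : Finset (Fin 7), rN (A ∪ B) + rN (A ∩ B) ≤ rN A + rN B := by decide +kernel

end Pool.Agent.H.MP_cf16d9_co
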